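import Mathlib

set_option autoImplicit false

namespace Pool.Agent.H.MP_eab1c6_co.Sub

open Finset

def upd (m : ℕ) (R : ℕ → ℕ → ℕ) : ℕ → ℕ → ℕ :=
  fun x y => if x = m + 1 then min (R m y + 1) (R (m + 2) y) else R x y

def Lip (R : ℕ → ℕ → ℕ) : Prop := ∀ x y, R x y ≤ R (x + 1) y ∧ R (x + 1) y ≤ R x y + 1

theorem upd_lip {m : ℕ} {R : ℕ → ℕ → ℕ} (h : Lip R) : Lip (upd m R) := by
  intro x y
  have h0 := h x y
  have h1 : R m y ≤ R (m + 1) y ∧ R (m + 1) y ≤ R m y + 1 := h m y
  have h2 : R (m + 1) y ≤ R (m + 2) y ∧ R (m + 2) y ≤ R (m + 1) y + 1 := h (m + 1) y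
  unfold upd
  by_cases a : x = m + 1
  · subst a
    rw [if_pos rfl, if_neg (by omega)]
    have : R (m + 1 + 1) y = R (m + 2) y := rfl
    omega
  · by_cases b : x = m
    · subst b
      rw [if_neg a, if_pos rfl]
      omega
    · rw [if_neg a, if_neg (by omega)]
      exact h0

theorem upd_mono {m : ℕ} {R S : ℕ → ℕ → ℕ} (h : ∀ x y, R x y ≤ S x y) (x y : ℕ) :
    upd m R x y ≤ upd m S x y := by
  unfold upd
  split_ifs
  · have := h m y
    have := h (m + 2) y
    omega
  · exact h x y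

def Rw (w : ℕ → ℕ) : ℕ → ℕ → ℕ
  | 0, _ => 0
  | x + 1, y => Rw w x y + if y ≤ w x then 1 else 0

theorem Rw_id (x y : ℕ) : Rw id x y = x - y := by
  induction x with
  | zero => simp [Rw]
  | succ x ih =>
    rw [Rw, ih]
    simp only [id]
    split_ifs <;> omega

def sw (m : ℕ) (i : ℕ) : ℕ := if i = m then m + 1 else if i = m + 1 then m else i

theorem sw_sw (m i : ℕ) : sw m (sw m i) = i := by
  unfold sw
  split_ifs <;> omega

theorem sw_inj (m : ℕ) : Function.Injective (sw m) := fun a b h => by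
  rw [← sw_sw m a, h, sw_sw]

theorem Rw_sw (w : ℕ → ℕ) (m y : ℕ) : ∀ x, x ≠ m + 1 → Rw (w ∘ sw m) x y = Rw w x y := by
  have low : ∀ x, x ≤ m → Rw (w ∘ sw m) x y = Rw w x y := by
    intro x
    induction x with
    | zero => intro _; rfl
    | succ x ih =>
      intro hx
      have : sw m x = x := by unfold sw; split_ifs <;> omega
      rw [Rw, Rw, ih (by omega), Function.comp_apply, this]
  have high : ∀ d, Rw (w ∘ sw m) (m + 2 + d) y = Rw w (m + 2 + d) y := by
    intro d
    induction d with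
    | zero =>
      have a : sw m m = m + 1 := by simp [sw]
      have b : sw m (m + 1) = m := by simp [sw]
      show Rw (w ∘ sw m) (m + 1 + 1) y = Rw w (m + 1 + 1) y
      rw [Rw, Rw, Rw, Rw, low m le_rfl, Function.comp_apply, Function.comp_apply, a, b]
      omega
    | succ d ih =>
      have : sw m (m + 2 + d) = m + 2 + d := by unfold sw; split_ifs <;> omega
      show Rw (w ∘ sw m) (m + 2 + d + 1) y = Rw w (m + 2 + d + 1) y
      rw [Rw, Rw, ih, Function.comp_apply, this]
  intro x hx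
  rcases Nat.lt_or_ge m x with h | h
  · obtain ⟨d, rfl⟩ : ∃ d, x = m + 2 + d := ⟨x - (m + 2), by omega⟩
    exact high d
  · exact low x h

theorem upd_desc {w : ℕ → ℕ} {m : ℕ} (h : w (m + 1) < w m) : upd m (Rw w) = Rw w := by
  funext x y
  unfold upd
  split_ifs with hx
  · subst hx
    show min (Rw w m y + 1) (Rw w (m + 1 + 1) y) = Rw w (m + 1) y
    rw [Rw, Rw]
    split_ifs <;> omega
  · rfl

theorem upd_asc {w : ℕ → ℕ} {m : ℕ} (h : w m < w (m + 1)) :
    upd m (Rw w) = Rw (w ∘ sw m) := by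
  funext x y
  unfold upd
  split_ifs with hx
  · subst hx
    have a : sw m m = m + 1 := by simp [sw]
    show min (Rw w m y + 1) (Rw w (m + 1 + 1) y) = Rw (w ∘ sw m) (m + 1) y
    rw [Rw, Rw, Rw, Rw_sw w m y m (by omega), Function.comp_apply, a]
    split_ifs <;> omega
  · rw [Rw_sw w m y x hx]

theorem le_of_asc {w : ℕ → ℕ} {m : ℕ} (h : w m < w (m + 1)) {R : ℕ → ℕ → ℕ} (hL : Lip R)
    (hle : ∀ x y, x ≠ m + 1 → Rw w x y ≤ R x y) (x y : ℕ) : Rw w x y ≤ R x y := by
  by_cases hx : x = m + 1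
  · subst hx
    have h1 := hle m y (by omega)
    have h2 : Rw w (m + 1 + 1) y ≤ R (m + 1 + 1) y := hle (m + 1 + 1) y (by omega)
    have h3 := (hL m y).1
    have h4 := (hL (m + 1) y).2
    rw [Rw, Rw] at h2
    rw [Rw]
    split_ifs at h2 ⊢ <;> omega
  · exact hle x y hx

def inv (M : ℕ) (w : ℕ → ℕ) : ℕ :=
  ((range M ×ˢ range M).filter fun p => p.1 < p.2 ∧ w p.2 < w p.1).card

theorem inv_sw {M m : ℕ} (hm : m + 1 < M) {w : ℕ → ℕ} (h : w (m + 1) < w m) :
    inv M w = inv M (w ∘ sw m) + 1 := by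
  unfold inv
  have hmem : (m, m + 1) ∈ (range M ×ˢ range M).filter fun p => p.1 < p.2 ∧ w p.2 < w p.1 := by
    simp only [mem_filter, mem_product, mem_range]
    omega
  rw [← card_erase_add_one hmem]
  congr 1
  have a : sw m m = m + 1 := by simp [sw]
  have b : sw m (m + 1) = m := by simp [sw]
  apply card_nbij' (fun p => (sw m p.1, sw m p.2)) (fun p => (sw m p.1, sw m p.2))
  · rintro ⟨i, j⟩ hp
    simp only [coe_erase, Set.mem_diff, mem_coe, mem_filter, mem_product, mem_range,
      Set.mem_singleton_iff, Prod.mk.injEq, Function.comp_apply, sw_sw] at hp ⊢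
    refine ⟨⟨?_, ?_⟩, ?_, hp.1.2.2⟩ <;> unfold sw <;> split_ifs <;> omega
  · rintro ⟨i, j⟩ hp
    simp only [coe_erase, Set.mem_diff, mem_coe, mem_filter, mem_product, mem_range,
      Set.mem_singleton_iff, Prod.mk.injEq, Function.comp_apply] at hp ⊢
    have hne : ¬ (i = m ∧ j = m + 1) := by
      rintro ⟨rfl, rfl⟩
      rw [a, b] at hp
      omega
    refine ⟨⟨⟨?_, ?_⟩, ?_, hp.2.2⟩, ?_⟩ <;> unfold sw <;> split_ifs <;> omega
  · rintro ⟨i, j⟩ _
    simp [sw_sw]
  · rintro ⟨i, j⟩ _
    simp [sw_sw]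

theorem Rw_zero {w : ℕ → ℕ} {y : ℕ} : ∀ x, Rw w x y = 0 → ∀ i < x, w i < y := by
  intro x
  induction x with
  | zero => intro _ i hi; omega
  | succ x ih =>
    intro h i hi
    rw [Rw] at h
    rcases Nat.lt_succ_iff_lt_or_eq.1 hi with h1 | rfl
    · exact ih (by omega) i h1
    · split_ifs at h <;> omega

theorem inv_zero {M : ℕ} {w : ℕ → ℕ} (hw : Function.Injective w)
    (h : ∀ x y, Rw w x y ≤ x - y) : inv M w = 0 := by
  have h1 : ∀ i, w i = i := by
    intro i
    induction i using Nat.strong_induction_on with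
    | _ i ih =>
      have h2 := Rw_zero (w := w) (y := i + 1) (i + 1) (by have := h (i + 1) (i + 1); omega) i
        (by omega)
      rcases Nat.lt_succ_iff_lt_or_eq.1 h2 with h3 | h3
      · exact hw (ih _ h3)
      · exact h3
  unfold inv
  rw [card_eq_zero, filter_eq_empty_iff]
  rintro ⟨i, j⟩ _
  simp only [h1]
  omega

def run (X : Finset (ℕ × ℕ)) : List (ℕ × ℕ) → ℕ → ℕ → ℕ
  | [] => fun x y => x - y
  | c :: cs => if c ∈ X then upd (c.1 + c.2) (run X cs) else run X cs

theorem run_lip (X : Finset (ℕ × ℕ)) : ∀ cs, Lip (run X cs)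
  | [] => fun x y => by simp only [run]; omega
  | c :: cs => by
    rw [run]
    split_ifs
    · exact upd_lip (run_lip X cs)
    · exact run_lip X cs

theorem run_erase (X : Finset (ℕ × ℕ)) (c : ℕ × ℕ) : ∀ cs, c ∉ cs → run (X.erase c) cs = run X cs
  | [], _ => rfl
  | d :: cs, h => by
    have h1 : d ≠ c := fun e => h (by simp [e])
    rw [run, run, run_erase X c cs (fun e => h (by simp [e]))]
    simp [h1]

theorem run_perm (X : Finset (ℕ × ℕ)) : ∀ cs, ∃ w, Function.Injective w ∧ run X cs = Rw w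
  | [] => ⟨id, Function.injective_id, by funext x y; rw [Rw_id]; rfl⟩
  | c :: cs => by
    obtain ⟨w, hw, h⟩ := run_perm X cs
    rw [run, h]
    split_ifs
    · rcases lt_trichotomy (w (c.1 + c.2)) (w (c.1 + c.2 + 1)) with h1 | h1 | h1
      · exact ⟨_, hw.comp (sw_inj _), upd_asc h1⟩
      · have := hw h1
        omega
      · exact ⟨w, hw, upd_desc h1⟩
    · exact ⟨w, hw, rfl⟩

theorem min_len (M : ℕ) (X : Finset (ℕ × ℕ)) : ∀ (cs : List (ℕ × ℕ)) (w : ℕ → ℕ),
    cs.Nodup → (∀ c ∈ cs, c.1 + c.2 + 1 < M) → Function.Injective w →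
    (∀ x y, Rw w x y ≤ run X cs x y) →
    (∀ c ∈ cs, c ∈ X → ¬ ∀ x y, Rw w x y ≤ run (X.erase c) cs x y) →
    (cs.filter (· ∈ X)).length = inv M w
  | [], w, _, _, hw, h, _ => by
    rw [inv_zero hw h]; rfl
  | c :: cs, w, hn, hM, hw, h, hmin => by
    rw [List.nodup_cons] at hn
    have hM' : ∀ d ∈ cs, d.1 + d.2 + 1 < M := fun d hd => hM d (by simp [hd])
    by_cases hc : c ∈ X
    · rw [run, if_pos hc] at h
      have hoff : ∀ x y, x ≠ c.1 + c.2 + 1 → Rw w x y ≤ run X cs x y := by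
        intro x y hx
        have := h x y
        rwa [upd, if_neg hx] at this
      rcases lt_trichotomy (w (c.1 + c.2)) (w (c.1 + c.2 + 1)) with h1 | h1 | h1
      · exfalso
        apply hmin c (by simp) hc
        rw [run, if_neg (by simp), run_erase X c cs hn.1]
        exact le_of_asc h1 (run_lip X cs) hoff
      · have := hw h1
        omega
      · have a : sw (c.1 + c.2) (c.1 + c.2) = c.1 + c.2 + 1 := by simp [sw]
        have b : sw (c.1 + c.2) (c.1 + c.2 + 1) = c.1 + c.2 := by simp [sw]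
        have hasc : (w ∘ sw (c.1 + c.2)) (c.1 + c.2) < (w ∘ sw (c.1 + c.2)) (c.1 + c.2 + 1) := by
          rw [Function.comp_apply, Function.comp_apply, a, b]; exact h1
        have hww : (w ∘ sw (c.1 + c.2)) ∘ sw (c.1 + c.2) = w := by
          funext i; simp [sw_sw]
        have ih := min_len M X cs (w ∘ sw (c.1 + c.2)) hn.2 hM' (hw.comp (sw_inj _))
          (le_of_asc hasc (run_lip X cs) (fun x y hx => by rw [Rw_sw w _ y x hx]; exact hoff x y hx))
          (by
            intro d hd hdX hle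
            apply hmin d (by simp [hd]) hdX
            have hcd : c ≠ d := fun e => hn.1 (e ▸ hd)
            rw [run, if_pos (mem_erase.2 ⟨hcd, hc⟩)]
            intro x y
            have := upd_mono (m := c.1 + c.2) hle x y
            rwa [upd_asc hasc, hww] at this)
        rw [inv_sw (hM c (by simp)) h1, ← ih, List.filter_cons_of_pos (by simpa using hc)]
        rfl
    · rw [run, if_neg hc] at h
      rw [List.filter_cons_of_neg (by simpa using hc)]
      refine min_len M X cs w hn.2 hM' hw h ?_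
      intro d hd hdX hle
      apply hmin d (by simp [hd]) hdX
      rw [run, if_neg (fun e => hc (mem_of_mem_erase e))]
      exact hle

end Pool.Agent.H.MP_eab1c6_co.Sub
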