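import Mathlib
import Pool.Agent.H.MP_eab1c6_co.Sub

set_option autoImplicit false

namespace Pool.Agent.H.MP_eab1c6_co.Geo

open Finset Pool.Agent.H.MP_eab1c6_co.Sub

def AC (B : Finset (ℕ × ℕ)) : Prop :=
  ∀ b ∈ B, ∀ c ∈ B, b ≠ c → (b.1 < c.1 ∧ c.2 < b.2) ∨ (c.1 < b.1 ∧ b.2 < c.2)

theorem AC.mono {B C : Finset (ℕ × ℕ)} (h : AC C) (hs : B ⊆ C) : AC B :=
  fun b hb c hc => h b (hs hb) c (hs hc)

theorem card_le_row {B : Finset (ℕ × ℕ)} (h : AC B) {a i : ℕ} (hB : ∀ b ∈ B, a ≤ b.1 ∧ b.1 < i) :
    B.card ≤ i - a := by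
  rw [← Nat.card_Ico]
  apply card_le_card_of_injOn Prod.fst
  · intro b hb
    simpa using hB b hb
  · intro b hb c hc e
    by_contra hne
    have := h b hb c hc hne
    omega

theorem card_le_col {B : Finset (ℕ × ℕ)} (h : AC B) {a i : ℕ} (hB : ∀ b ∈ B, a ≤ b.2 ∧ b.2 < i) :
    B.card ≤ i - a := by
  rw [← Nat.card_Ico]
  apply card_le_card_of_injOn Prod.snd
  · intro b hb
    simpa using hB b hb
  · intro b hb c hc e
    by_contra hne
    have := h b hb c hc hne
    omega

def Ch (X : Finset (ℕ × ℕ)) (q i j L : ℕ) : Prop :=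
  ∃ B : Finset (ℕ × ℕ), B.card = L ∧ (∀ b ∈ B, b ∉ X ∧ b.1 < i ∧ j ≤ b.2 ∧ b.2 < q) ∧ AC B

theorem Ch.le {X : Finset (ℕ × ℕ)} {q i j L : ℕ} (h : Ch X q i j L) : L ≤ i ∧ L ≤ q - j := by
  obtain ⟨B, rfl, hB, hA⟩ := h
  exact ⟨by simpa using card_le_row hA (a := 0) (i := i) (fun b hb => ⟨by omega, (hB b hb).2.1⟩),
    card_le_col hA (fun b hb => (hB b hb).2.2)⟩

open Classical in
noncomputable def ch (X : Finset (ℕ × ℕ)) (q i j : ℕ) : ℕ := Nat.findGreatest (Ch X q i j) i

theorem ch_spec (X : Finset (ℕ × ℕ)) (q i j : ℕ) : Ch X q i j (ch X q i j) := by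
  classical
  exact Nat.findGreatest_spec (P := Ch X q i j) (m := 0) (Nat.zero_le i)
    ⟨∅, rfl, by simp, by simp [AC]⟩

theorem le_ch {X : Finset (ℕ × ℕ)} {q i j L : ℕ} (h : Ch X q i j L) : L ≤ ch X q i j := by
  classical
  exact Nat.le_findGreatest h.le.1 h

theorem ch_mono {X : Finset (ℕ × ℕ)} {q i j i' j' : ℕ} (hi : i ≤ i') (hj : j' ≤ j) :
    ch X q i j ≤ ch X q i' j' := by
  obtain ⟨B, h1, h2, h3⟩ := ch_spec X q i j
  exact le_ch ⟨B, h1, fun b hb => by have := h2 b hb; refine ⟨this.1, ?_⟩; omega, h3⟩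

theorem ch_elbow {X : Finset (ℕ × ℕ)} {q i j : ℕ} (hc : (i, j) ∉ X) (hj : j < q) :
    ch X q (i + 1) j = ch X q i (j + 1) + 1 := by
  apply le_antisymm
  · obtain ⟨B, h1, h2, h3⟩ := ch_spec X q (i + 1) j
    have h4 : (B.filter fun b => b.1 = i ∨ b.2 = j).card ≤ 1 := by
      rw [card_le_one]
      intro b hb c hc
      rw [mem_filter] at hb hc
      by_contra hne
      have := h3 b hb.1 c hc.1 hne
      have := h2 b hb.1
      have := h2 c hc.1
      omega
    have h5 := card_filter_add_card_filter_not (s := B) (fun b => b.1 = i ∨ b.2 = j)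
    have h6 : (B.filter fun b => ¬ (b.1 = i ∨ b.2 = j)).card ≤ ch X q i (j + 1) :=
      le_ch ⟨_, rfl, fun b hb => by
        rw [mem_filter] at hb
        have := h2 b hb.1
        refine ⟨this.1, ?_⟩
        omega, h3.mono (filter_subset _ _)⟩
    omega
  · obtain ⟨B, h1, h2, h3⟩ := ch_spec X q i (j + 1)
    have hn : (i, j) ∉ B := fun h => by have := h2 _ h; simp at this
    refine le_ch ⟨insert (i, j) B, by rw [card_insert_of_notMem hn, h1], ?_, ?_⟩
    · intro b hb
      rcases mem_insert.1 hb with rfl | hb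
      · exact ⟨hc, by simp, by simp, hj⟩
      · have := h2 b hb
        refine ⟨this.1, ?_⟩
        omega
    · intro b hb c hc hne
      rcases mem_insert.1 hb with rfl | hb <;> rcases mem_insert.1 hc with rfl | hc
      · exact absurd rfl hne
      · have := h2 c hc
        simp only
        omega
      · have := h2 b hb
        simp only
        omega
      · exact h3 b hb c hc hne

theorem ch_cross {X : Finset (ℕ × ℕ)} {q i j : ℕ} (hc : (i, j) ∈ X) :
    ch X q (i + 1) j = max (ch X q i j) (ch X q (i + 1) (j + 1)) := by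
  apply le_antisymm
  · obtain ⟨B, h1, h2, h3⟩ := ch_spec X q (i + 1) j
    by_cases h : ∃ b ∈ B, b.1 = i
    · obtain ⟨b, hb, hbi⟩ := h
      refine le_trans (le_ch ⟨B, h1, ?_, h3⟩) (le_max_right _ _)
      intro c hcB
      have h4 := h2 c hcB
      have h5 := h2 b hb
      refine ⟨h4.1, h4.2.1, ?_, h4.2.2.2⟩
      by_cases e : b = c
      · subst e
        have : b.2 ≠ j := by
          intro e2
          exact h4.1 (by rw [show b = (i, j) from Prod.ext hbi e2]; exact hc)
        omega
      · have := h3 b hb c hcB e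
        omega
    · push Not at h
      refine le_trans (le_ch ⟨B, h1, ?_, h3⟩) (le_max_left _ _)
      intro c hcB
      have h4 := h2 c hcB
      have := h c hcB
      refine ⟨h4.1, ?_, h4.2.2⟩
      omega
  · exact max_le (ch_mono (by omega) le_rfl) (ch_mono le_rfl (by omega))

noncomputable def Rv (X : Finset (ℕ × ℕ)) (q i j : ℕ) : ℕ := (i - ch X q i j) + (j - q)

theorem Rv_elbow {X : Finset (ℕ × ℕ)} {q i j : ℕ} (hc : (i, j) ∉ X) :
    Rv X q (i + 1) j = Rv X q i (j + 1) := by
  unfold Rv
  by_cases hj : j < q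
  · rw [ch_elbow hc hj]
    omega
  · have := (ch_spec X q (i + 1) j).le
    have := (ch_spec X q i (j + 1)).le
    omega

theorem Rv_cross {X : Finset (ℕ × ℕ)} {q i j : ℕ} (hc : (i, j) ∈ X) :
    Rv X q (i + 1) j = min (Rv X q i j + 1) (Rv X q (i + 1) (j + 1)) := by
  unfold Rv
  rw [ch_cross hc]
  have := (ch_spec X q i j).le
  have := (ch_spec X q (i + 1) (j + 1)).le
  omega

def rowL (p a k : ℕ) : List (ℕ × ℕ) := (List.range' a k).map fun j => (p, j)

def cells (N : ℕ) : ℕ → List (ℕ × ℕ)
  | 0 => []
  | p + 1 => rowL p 0 N ++ cells N p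

theorem mem_cells {N : ℕ} {c : ℕ × ℕ} : ∀ p, c ∈ cells N p ↔ c.1 < p ∧ c.2 < N
  | 0 => by simp [cells]
  | p + 1 => by
    rw [cells, List.mem_append, mem_cells p]
    simp only [rowL, List.mem_map, List.mem_range'_1]
    constructor
    · rintro (⟨j, hj, rfl⟩ | h)
      · simp only; omega
      · omega
    · intro h
      by_cases e : c.1 = p
      · exact Or.inl ⟨c.2, by omega, Prod.ext e.symm rfl⟩
      · right; omega

theorem nodup_cells (N : ℕ) : ∀ p, (cells N p).Nodup
  | 0 => List.nodup_nil
  | p + 1 => by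
    rw [cells, List.nodup_append]
    refine ⟨List.Nodup.map (fun a b h => by simpa using h) List.nodup_range', nodup_cells N p, ?_⟩
    intro a ha b hb e
    rw [mem_cells] at hb
    simp only [rowL, List.mem_map] at ha
    obtain ⟨j, -, rfl⟩ := ha
    rw [← e] at hb
    simp at hb

theorem run_cells {N : ℕ} {X : Finset (ℕ × ℕ)} (hX : ∀ c ∈ X, c.2 < N) :
    ∀ p x y, run X (cells N p) x y = Rv X y (min x p) (x - min x p) := by
  intro p
  induction p with
  | zero =>
    intro x y
    have := (ch_spec X y 0 x).le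
    simp [cells, run, Rv]
  | succ p ih =>
    have key : ∀ k a, a + k = N → ∀ x y, run X (rowL p a k ++ cells N p) x y =
        if p + 1 + a ≤ x then Rv X y (p + 1) (x - (p + 1)) else Rv X y (min x p) (x - min x p) := by
      intro k
      induction k with
      | zero =>
        intro a ha x y
        rw [show rowL p a 0 ++ cells N p = cells N p from rfl, ih]
        split_ifs with h
        · rw [Rv_elbow (fun e => by have := hX _ e; simp only at this; omega),
            min_eq_right (by omega), show x - (p + 1) + 1 = x - p by omega]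
        · rfl
      | succ k ihk =>
        intro a ha x y
        have h1 := ihk (a + 1) (by omega)
        rw [show rowL p a (k + 1) ++ cells N p = (p, a) :: (rowL p (a + 1) k ++ cells N p) from rfl,
          run]
        by_cases hc : (p, a) ∈ X
        · rw [if_pos hc, upd]
          by_cases hx : x = p + a + 1
          · subst hx
            rw [if_pos rfl, h1, h1, if_neg (by simp only; omega), if_pos (by simp only; omega),
              if_pos (by omega), show p + a + 1 - (p + 1) = a by omega, Rv_cross hc]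
            simp only
            rw [min_eq_right (by omega : p ≤ p + a), show p + a - p = a by omega,
              show p + a + 2 - (p + 1) = a + 1 by omega]
          · rw [if_neg hx, h1]
            by_cases h2 : p + 1 + a ≤ x
            · rw [if_pos h2, if_pos (by omega)]
            · rw [if_neg h2, if_neg (by omega)]
        · rw [if_neg hc, h1]
          by_cases hx : x = p + a + 1
          · subst hx
            rw [if_neg (by omega), if_pos (by omega), show p + a + 1 - (p + 1) = a by omega,
              Rv_elbow hc, min_eq_right (by omega), show p + a + 1 - p = a + 1 by omega]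
          · by_cases h2 : p + 1 + a ≤ x
            · rw [if_pos h2, if_pos (by omega)]
            · rw [if_neg h2, if_neg (by omega)]
    intro x y
    rw [cells, key N 0 (by omega)]
    split_ifs with h
    · rw [min_eq_right (by omega)]
    · rw [min_eq_left (by omega), min_eq_left (by omega)]

theorem run_final {N : ℕ} {X : Finset (ℕ × ℕ)} (hX : ∀ c ∈ X, c.1 < N ∧ c.2 < N) (x y : ℕ) :
    run X (cells N N) x y = x - ch X y x 0 := by
  rw [run_cells (fun c hc => (hX c hc).2)]
  have key : ∀ d j, Rv X y (N + d) j = Rv X y N (j + d) := by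
    intro d
    induction d with
    | zero => intro j; rfl
    | succ d ih =>
      intro j
      rw [← add_assoc, Rv_elbow (fun e => by have := hX _ e; simp only at this; omega), ih]
      congr 1
      omega
  rcases le_total x N with h | h
  · rw [min_eq_left h, Nat.sub_self]
    simp [Rv]
  · obtain ⟨d, rfl⟩ := Nat.exists_eq_add_of_le h
    rw [min_eq_right h, show N + d - N = 0 + d by omega, ← key]
    simp [Rv]

def Free (k : ℕ) (U F : Finset (ℕ × ℕ)) : Prop :=
  ∀ c ∈ U, ∀ B ⊆ F, AC B → (∀ b ∈ B, b.1 ≤ c.1 ∧ b.2 ≤ c.2) → B.card ≤ k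

def Down (U : Finset (ℕ × ℕ)) : Prop :=
  ∀ c ∈ U, ∀ b : ℕ × ℕ, b.1 ≤ c.1 → b.2 ≤ c.2 → b ∈ U

def std (k : ℕ) (U : Finset (ℕ × ℕ)) : Finset (ℕ × ℕ) :=
  U.filter fun c => c.1 < k ∨ (c.1, c.2 + k) ∉ U

theorem std_free {k : ℕ} {U : Finset (ℕ × ℕ)} (hU : Down U) : Free k U (std k U) := by
  intro c hc B hB hA hle
  rcases B.eq_empty_or_nonempty with rfl | hne
  · simp
  obtain ⟨b, hb, hmax⟩ := exists_max_image B Prod.fst hne
  have h1 := card_le_row hA (a := 0) (i := b.1 + 1) (fun d hd => by have := hmax d hd; omega)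
  have h2 := card_le_col hA (a := b.2) (i := c.2 + 1) (fun d hd => by
    have := hmax d hd
    have := hle d hd
    by_cases e : d = b
    · subst e; omega
    · have := hA d hd b hb e
      omega)
  rcases (mem_filter.1 (hB hb)).2 with h3 | h3
  · omega
  · by_contra h4
    exact h3 (hU c hc _ (hle b hb).1 (by simp only; omega))

theorem std_max {k : ℕ} {U : Finset (ℕ × ℕ)} (hU : Down U) (c : ℕ × ℕ) (hc : c ∈ U)
    (hn : c ∉ std k U) : ¬ Free k U (insert c (std k U)) := by
  intro h
  have h1 : k ≤ c.1 ∧ (c.1, c.2 + k) ∈ U := by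
    by_contra h2
    apply hn
    refine mem_filter.2 ⟨hc, ?_⟩
    by_cases h3 : c.1 < k
    · exact Or.inl h3
    · exact Or.inr fun h4 => h2 ⟨by omega, h4⟩
  have hnot : c ∉ (range k).image fun t => (t, c.2 + k - t) := by
    simp only [mem_image, mem_range, not_exists, not_and]
    intro t ht e
    have := congrArg Prod.fst e
    simp only at this
    omega
  have := h _ h1.2 (insert c ((range k).image fun t => (t, c.2 + k - t))) (by
    apply insert_subset_insert
    intro b hb
    obtain ⟨t, ht, rfl⟩ := mem_image.1 hb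
    rw [mem_range] at ht
    exact mem_filter.2 ⟨hU _ h1.2 _ (by simp only; omega) (by simp only; omega), Or.inl ht⟩) (by
    intro b hb d hd hne
    simp only [mem_insert, mem_image, mem_range] at hb hd
    rcases hb with rfl | ⟨t, ht, rfl⟩ <;> rcases hd with rfl | ⟨u, hu, rfl⟩
    · exact absurd rfl hne
    · simp only; omega
    · simp only; omega
    · have : t ≠ u := fun e => hne (by rw [e])
      simp only; omega) (by
    intro b hb
    simp only [mem_insert, mem_image, mem_range] at hb
    rcases hb with rfl | ⟨t, ht, rfl⟩ <;> simp only <;> omega)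
  rw [card_insert_of_notMem hnot, card_image_of_injective _ (fun a b e => by
    simpa using congrArg Prod.fst e), card_range] at this
  omega

theorem free_iff {k : ℕ} {U F : Finset (ℕ × ℕ)} (hU : Down U) (hF : F ⊆ U) :
    Free k U F ↔ ∀ p q, ch (U \ F) q p 0 ≤ ch (U \ std k U) q p 0 := by
  constructor
  · intro h p q
    obtain ⟨B, h1, h2, h3⟩ := ch_spec (U \ F) q p 0
    have hL := (ch_spec (U \ F) q p 0).le
    set L := ch (U \ F) q p 0 with hLdef
    have bound : ∀ c ∈ U, L ≤ k + (p - (c.1 + 1)) + (q - (c.2 + 1)) := by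
      intro c hc
      have a0 := h c hc (B.filter fun b => b.1 ≤ c.1 ∧ b.2 ≤ c.2) (by
        intro b hb
        rw [mem_filter] at hb
        by_contra hbF
        exact (h2 b hb.1).1 (mem_sdiff.2 ⟨hU c hc b hb.2.1 hb.2.2, hbF⟩))
        (h3.mono (filter_subset _ _)) (fun b hb => (mem_filter.1 hb).2)
      have a1 := card_le_row (h3.mono (filter_subset (fun b => c.1 < b.1) B)) (a := c.1 + 1) (i := p)
        (fun b hb => by rw [mem_filter] at hb; have := h2 b hb.1; omega)
      have a2 := card_le_col (h3.mono (filter_subset (fun b => c.2 < b.2) B)) (a := c.2 + 1) (i := q)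
        (fun b hb => by rw [mem_filter] at hb; have := h2 b hb.1; omega)
      have a3 : B ⊆ (B.filter fun b => b.1 ≤ c.1 ∧ b.2 ≤ c.2) ∪ B.filter (fun b => c.1 < b.1) ∪
          B.filter (fun b => c.2 < b.2) := by
        intro b hb
        simp only [mem_union, mem_filter, hb, true_and]
        omega
      have a4 := card_le_card a3
      have a5 := card_union_le ((B.filter fun b => b.1 ≤ c.1 ∧ b.2 ≤ c.2) ∪
        B.filter (fun b => c.1 < b.1)) (B.filter (fun b => c.2 < b.2))
      have a6 := card_union_le (B.filter fun b => b.1 ≤ c.1 ∧ b.2 ≤ c.2)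
        (B.filter (fun b => c.1 < b.1))
      omega
    refine le_ch ⟨(range L).image fun t => (if t < k then t else p - L + t, q - 1 - t), ?_, ?_, ?_⟩
    · rw [card_image_of_injOn, card_range]
      intro a ha b hb e
      have := congrArg Prod.snd e
      simp only [coe_range, Set.mem_Iio] at this ha hb
      omega
    · intro b hb
      obtain ⟨t, ht, rfl⟩ := mem_image.1 hb
      rw [mem_range] at ht
      refine ⟨?_, by simp only; split_ifs <;> omega, by simp, by simp only; omega⟩
      intro hm
      rw [mem_sdiff] at hm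
      apply hm.2
      refine mem_filter.2 ⟨hm.1, ?_⟩
      simp only
      split_ifs with h4
      · exact Or.inl h4
      · right
        intro h5
        have := bound _ h5
        simp only at this
        omega
    · intro b hb d hd hne
      obtain ⟨t, ht, rfl⟩ := mem_image.1 hb
      obtain ⟨u, hu, rfl⟩ := mem_image.1 hd
      rw [mem_range] at ht hu
      have : t ≠ u := fun e => hne (by rw [e])
      simp only
      split_ifs <;> omega
  · intro h c hc B hB hA hle
    have h1 : B.card ≤ ch (U \ F) (c.2 + 1) (c.1 + 1) 0 :=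
      le_ch ⟨B, rfl, fun b hb => ⟨fun e => (mem_sdiff.1 e).2 (hB hb), by have := hle b hb; omega⟩, hA⟩
    obtain ⟨B', h2, h3, h4⟩ := ch_spec (U \ std k U) (c.2 + 1) (c.1 + 1) 0
    have h5 := std_free (k := k) hU c hc B' (by
      intro b hb
      have := h3 b hb
      by_contra e
      exact this.1 (mem_sdiff.2 ⟨hU c hc b (by omega) (by omega), e⟩)) h4
      (fun b hb => by have := h3 b hb; omega)
    have := h (c.1 + 1) (c.2 + 1)
    omega

theorem pure {N k : ℕ} {U F : Finset (ℕ × ℕ)} (hN : ∀ c ∈ U, c.1 < N ∧ c.2 < N) (hU : Down U)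
    (hF : F ⊆ U) (hfree : Free k U F) (hmax : ∀ c ∈ U, c ∉ F → ¬ Free k U (insert c F)) :
    F.card = (std k U).card := by
  obtain ⟨w, hw, hrun⟩ := run_perm (U \ std k U) (cells N N)
  have hiff : ∀ G ⊆ U, (Free k U G ↔ ∀ x y, Rw w x y ≤ run (U \ G) (cells N N) x y) := by
    intro G hG
    rw [free_iff hU hG, ← hrun]
    refine forall_congr' fun x => forall_congr' fun y => ?_
    rw [run_final (fun c hc => hN c (mem_sdiff.1 hc).1), run_final (fun c hc => hN c (mem_sdiff.1 hc).1)]
    have := (ch_spec (U \ G) y x 0).le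
    have := (ch_spec (U \ std k U) y x 0).le
    omega
  have main : ∀ G ⊆ U, Free k U G → (∀ c ∈ U, c ∉ G → ¬ Free k U (insert c G)) →
      (U \ G).card = inv (2 * N) w := by
    intro G hG h1 h2
    rw [← min_len (2 * N) (U \ G) (cells N N) w (nodup_cells N N)
      (fun c hc => by rw [mem_cells] at hc; omega) hw ((hiff G hG).1 h1) (by
        intro c _ hc h3
        rw [mem_sdiff] at hc
        apply h2 c hc.1 hc.2
        rw [hiff _ (insert_subset hc.1 hG), sdiff_insert]
        exact h3)]
    rw [← List.toFinset_card_of_nodup ((nodup_cells N N).filter _)]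
    congr 1
    ext c
    simp only [List.mem_toFinset, List.mem_filter, mem_cells, decide_eq_true_eq]
    exact ⟨fun h => ⟨hN c (mem_sdiff.1 h).1, h⟩, fun h => h.2⟩
  have h1 := main F hF hfree hmax
  have h2 := main (std k U) (filter_subset _ _) (std_free hU) (std_max hU)
  have h3 := card_sdiff_add_card_eq_card hF
  have h4 := card_sdiff_add_card_eq_card (show std k U ⊆ U from filter_subset _ _)
  omega

end Pool.Agent.H.MP_eab1c6_co.Geo
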