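import Mathlib
import Pool.Agent.H.MP_eab1c6_co.Geo

set_option autoImplicit false

namespace Pool.Agent.H.MP_eab1c6_co.Cnt

open Finset Pool.Agent.H.MP_eab1c6_co.Geo

def box (N : ℕ) : Finset (ℕ × ℕ) := range N ×ˢ range N

theorem mem_box {N : ℕ} {c : ℕ × ℕ} : c ∈ box N ↔ c.1 < N ∧ c.2 < N := by simp [box]

theorem card_box (N : ℕ) : (box N).card = N * N := by simp [box]

theorem card_std {N k : ℕ} {U : Finset (ℕ × ℕ)} (hN : U ⊆ box N) (hU : Down U)
    (hfull : ∀ c ∈ box N, c ∉ U → k ≤ c.1 ∧ k ≤ c.2) :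
    (std k U).card + (N - k) * (N - k) = N * N := by
  have h1 : (U.filter fun c => ¬ (c.1 < k ∨ (c.1, c.2 + k) ∉ U)).card =
      (U.filter fun c => k ≤ c.1 ∧ k ≤ c.2).card := by
    apply card_nbij' (fun c => (c.1, c.2 + k)) (fun c => (c.1, c.2 - k))
    · intro c hc
      simp only [coe_filter, Set.mem_ofPred_eq, not_or, not_not] at hc ⊢
      exact ⟨hc.2.2, by omega, by omega⟩
    · intro c hc
      simp only [coe_filter, Set.mem_ofPred_eq, not_or, not_not] at hc ⊢
      refine ⟨hU c hc.1 _ le_rfl (by simp), by omega, ?_⟩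
      rw [show c.2 - k + k = c.2 by omega]
      exact hc.1
    · intro c _
      simp
    · intro c hc
      simp only [coe_filter, Set.mem_ofPred_eq] at hc
      exact Prod.ext rfl (by simp only; omega)
  have h2 := card_filter_add_card_filter_not (s := U) (fun c => c.1 < k ∨ (c.1, c.2 + k) ∉ U)
  have h3 := card_filter_add_card_filter_not (s := U) (fun c => k ≤ c.1 ∧ k ≤ c.2)
  have h4 := card_filter_add_card_filter_not (s := box N) (fun c => k ≤ c.1 ∧ k ≤ c.2)
  have h5 : U.filter (fun c => ¬ (k ≤ c.1 ∧ k ≤ c.2)) =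
      (box N).filter (fun c => ¬ (k ≤ c.1 ∧ k ≤ c.2)) := by
    ext c
    simp only [mem_filter]
    exact ⟨fun h => ⟨hN h.1, h.2⟩, fun h => ⟨by_contra fun e => h.2 (hfull c h.1 e), h.2⟩⟩
  have h6 : (box N).filter (fun c => k ≤ c.1 ∧ k ≤ c.2) = Ico k N ×ˢ Ico k N := by
    ext c
    simp only [mem_filter, mem_box, mem_product, mem_Ico]
    omega
  rw [h6, card_product, Nat.card_Ico, card_box] at h4
  rw [h5] at h3
  unfold std
  omega

theorem satV {n k : ℕ} {F : Finset (ℕ × ℕ)} (hF : F ⊆ box n) (hfree : Free k F F)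
    (hsat : ∀ z ∈ box n, z ∉ F → ¬ Free k (insert z F) (insert z F)) :
    F.card + (n - k) * (n - k) = n * n := by
  set U := (box n).filter fun c => ∃ a ∈ F, c.1 ≤ a.1 ∧ c.2 ≤ a.2 with hUdef
  have hmem : ∀ c, c ∈ U ↔ ∃ a ∈ F, c.1 ≤ a.1 ∧ c.2 ≤ a.2 := by
    intro c
    rw [hUdef, mem_filter, mem_box]
    refine ⟨fun h => h.2, fun h => ⟨?_, h⟩⟩
    obtain ⟨a, ha, h⟩ := h
    have := mem_box.1 (hF ha)
    omega
  have hFU : F ⊆ U := fun a ha => (hmem a).2 ⟨a, ha, le_rfl, le_rfl⟩
  have hD : Down U := by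
    intro c hc b h1 h2
    obtain ⟨a, ha, h⟩ := (hmem c).1 hc
    exact (hmem b).2 ⟨a, ha, by omega, by omega⟩
  have hUb : U ⊆ box n := filter_subset _ _
  rw [pure (N := n) (k := k) (fun c hc => mem_box.1 (hUb hc)) hD hFU (by
    intro c hc B hB hA hle
    obtain ⟨a, ha, h⟩ := (hmem c).1 hc
    exact hfree a ha B hB hA (fun b hb => by have := hle b hb; omega)) (by
    intro c hc hcF h
    exact hsat c (hUb hc) hcF (fun a ha => h a (insert_subset hc hFU ha)))]
  refine card_std hUb hD ?_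
  intro z hz hzU
  have h := hsat z hz (fun e => hzU (hFU e))
  unfold Free at h
  push Not at h
  obtain ⟨a, ha, B, hB, hA, hle, hc⟩ := h
  rcases mem_insert.1 ha with rfl | ha2
  · have h1 := card_le_row hA (a := 0) (i := a.1 + 1) (fun b hb => by have := hle b hb; omega)
    have h2 := card_le_col hA (a := 0) (i := a.2 + 1) (fun b hb => by have := hle b hb; omega)
    omega
  · have := hfree a ha2 B (by
      intro b hb
      rcases mem_insert.1 (hB hb) with rfl | h
      · exact absurd ((hmem b).2 ⟨a, ha2, hle b hb⟩) hzU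
      · exact h) hA hle
    omega

def FreeJ (k : ℕ) (F : Finset (ℕ × ℕ)) : Prop :=
  ∀ a ∈ F, ∀ B ⊆ F, AC B → (∀ b ∈ B, b.1 < a.1 ∧ b.2 < a.2) → B.card ≤ k

theorem satJ {m k : ℕ} {F : Finset (ℕ × ℕ)} (hF : F ⊆ box (m + 1)) (hfree : FreeJ k F)
    (hsat : ∀ z ∈ box (m + 1), z ∉ F → ¬ FreeJ k (insert z F)) :
    F.card + (m - k) * (m - k) = (m + 1) * (m + 1) := by
  set U := (box m).filter fun c => ∃ a ∈ F, c.1 < a.1 ∧ c.2 < a.2 with hUdef
  have hmem : ∀ c, c ∈ U ↔ ∃ a ∈ F, c.1 < a.1 ∧ c.2 < a.2 := by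
    intro c
    rw [hUdef, mem_filter, mem_box]
    refine ⟨fun h => h.2, fun h => ⟨?_, h⟩⟩
    obtain ⟨a, ha, h⟩ := h
    have := mem_box.1 (hF ha)
    omega
  have hD : Down U := by
    intro c hc b h1 h2
    obtain ⟨a, ha, h⟩ := (hmem c).1 hc
    exact (hmem b).2 ⟨a, ha, by omega, by omega⟩
  have hUb : U ⊆ box m := filter_subset _ _
  have viol : ∀ z ∈ box (m + 1), z ∉ F → z ∉ U → ∃ B ⊆ F, AC B ∧
      (∀ b ∈ B, b.1 < z.1 ∧ b.2 < z.2) ∧ k < B.card := by
    intro z hz hzF hzU
    have h := hsat z hz hzF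
    unfold FreeJ at h
    push Not at h
    obtain ⟨a, ha, B, hB, hA, hle, hc⟩ := h
    rcases mem_insert.1 ha with rfl | ha2
    · refine ⟨B, fun b hb => ?_, hA, hle, hc⟩
      rcases mem_insert.1 (hB hb) with rfl | h
      · have := hle b hb
        omega
      · exact h
    · have := hfree a ha2 B (by
        intro b hb
        rcases mem_insert.1 (hB hb) with rfl | h
        · exact absurd ((hmem b).2 ⟨a, ha2, hle b hb⟩) hzU
        · exact h) hA hle
      omega
  have h0 : (F ∩ U).card + (m - k) * (m - k) = m * m := by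
    rw [pure (N := m) (k := k) (fun c hc => mem_box.1 (hUb hc)) hD inter_subset_right (by
      intro c hc B hB hA hle
      obtain ⟨a, ha, h⟩ := (hmem c).1 hc
      exact hfree a ha B (hB.trans inter_subset_left) hA (fun b hb => by have := hle b hb; omega)) (by
      intro c hc hcF hfr
      have h := hsat c (by have := mem_box.1 (hUb hc); rw [mem_box]; omega)
        (fun e => hcF (mem_inter.2 ⟨e, hc⟩))
      unfold FreeJ at h
      push Not at h
      obtain ⟨a, ha, B, hB, hA, hle, hk⟩ := h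
      rcases mem_insert.1 ha with rfl | ha
      · obtain ⟨a', ha', h⟩ := (hmem a).1 hc
        have := hfree a' ha' B (by
          intro b hb
          rcases mem_insert.1 (hB hb) with rfl | h
          · have := hle b hb
            omega
          · exact h) hA (fun b hb => by have := hle b hb; omega)
        omega
      · obtain ⟨b0, hb0⟩ : B.Nonempty := card_pos.1 (by omega)
        have h1 := hle b0 hb0
        have := hfr (a.1 - 1, a.2 - 1) ((hmem _).2 ⟨a, ha, by simp only; omega, by simp only; omega⟩)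
          B (by
            intro b hb
            rcases mem_insert.1 (hB hb) with rfl | h
            · exact mem_insert_self _ _
            · exact mem_insert_of_mem (mem_inter.2 ⟨h, (hmem b).2 ⟨a, ha, hle b hb⟩⟩)) hA
          (fun b hb => by have := hle b hb; simp only; omega)
        omega)]
    refine card_std hUb hD ?_
    intro c hc hcU
    rw [mem_box] at hc
    obtain ⟨B, hB, hA, hle, hk⟩ := viol (c.1 + 1, c.2 + 1) (by rw [mem_box]; simp only; omega)
      (fun e => hcU ((hmem c).2 ⟨_, e, by simp, by simp⟩))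
      (fun e => hcU (hD _ e c (by simp) (by simp)))
    have h1 := card_le_row hA (a := 0) (i := c.1 + 1) (fun b hb => ⟨by omega, (hle b hb).1⟩)
    have h2 := card_le_col hA (a := 0) (i := c.2 + 1) (fun b hb => ⟨by omega, (hle b hb).2⟩)
    omega
  have h1 : F \ U = (box (m + 1) \ U).filter
      fun z => ¬ (1 ≤ z.1 ∧ 1 ≤ z.2 ∧ (z.1 - 1, z.2 - 1) ∉ U) := by
    ext z
    simp only [mem_filter, mem_sdiff]
    constructor
    · rintro ⟨h2, h3⟩
      refine ⟨⟨hF h2, h3⟩, fun h4 => h4.2.2 ((hmem _).2 ⟨z, h2, ?_, ?_⟩)⟩ <;> simp only <;> omega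
    · rintro ⟨⟨h2, h3⟩, h4⟩
      refine ⟨by_contra fun h5 => ?_, h3⟩
      obtain ⟨B, hB, hA, hle, hk⟩ := viol z h2 h5 h3
      obtain ⟨b0, hb0⟩ : B.Nonempty := card_pos.1 (by omega)
      have h6 := hle b0 hb0
      apply h4
      refine ⟨by omega, by omega, fun h7 => ?_⟩
      obtain ⟨a, ha, h8⟩ := (hmem _).1 h7
      simp only at h8
      have := hfree a ha B hB hA (fun b hb => by have := hle b hb; omega)
      omega
  have h2 : ((box (m + 1) \ U).filter
      fun z => 1 ≤ z.1 ∧ 1 ≤ z.2 ∧ (z.1 - 1, z.2 - 1) ∉ U).card = (box m \ U).card := by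
    apply card_nbij' (fun c => (c.1 - 1, c.2 - 1)) (fun c => (c.1 + 1, c.2 + 1))
    · intro c hc
      simp only [mem_coe, mem_filter, mem_sdiff, mem_box] at hc ⊢
      exact ⟨by omega, hc.2.2.2⟩
    · intro c hc
      simp only [mem_coe, mem_filter, mem_sdiff, mem_box] at hc ⊢
      exact ⟨⟨by omega, fun e => hc.2 (hD _ e c (by simp) (by simp))⟩, by omega, by omega,
        by simpa using hc.2⟩
    · intro c hc
      simp only [mem_coe, mem_filter, mem_sdiff, mem_box] at hc
      exact Prod.ext (by simp only; omega) (by simp only; omega)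
    · intro c _
      simp
  have h3 := card_filter_add_card_filter_not (s := box (m + 1) \ U)
    (fun z => 1 ≤ z.1 ∧ 1 ≤ z.2 ∧ (z.1 - 1, z.2 - 1) ∉ U)
  have h4 := card_sdiff_add_card_eq_card hUb
  have h5 := card_sdiff_add_card_eq_card (show U ⊆ box (m + 1) from fun c hc => by
    have := mem_box.1 (hUb hc); rw [mem_box]; omega)
  have h6 := card_sdiff_add_card_inter F U
  rw [card_box] at h4 h5
  rw [← h1, h2] at h3
  omega

theorem sorted {B : Finset (ℕ × ℕ)} (hA : AC B) {L : ℕ} (hL : L ≤ B.card) :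
    ∃ f : ℕ → ℕ × ℕ, (∀ t < L, f t ∈ B) ∧
      ∀ t u, t < u → u < L → (f t).1 < (f u).1 ∧ (f u).2 < (f t).2 := by
  have hc : (B.image Prod.fst).card = B.card := by
    apply card_image_of_injOn
    intro b hb c hc e
    by_contra hne
    have := hA b hb c hc hne
    omega
  let e := (B.image Prod.fst).orderEmbOfFin hc
  have h1 : ∀ t : ℕ, ∃ b : ℕ × ℕ, ∀ h : t < B.card, b ∈ B ∧ b.1 = e ⟨t, h⟩ := by
    intro t
    by_cases h : t < B.card
    · obtain ⟨b, hb, h2⟩ := mem_image.1 ((B.image Prod.fst).orderEmbOfFin_mem hc ⟨t, h⟩)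
      exact ⟨b, fun _ => ⟨hb, h2⟩⟩
    · exact ⟨(0, 0), fun h' => absurd h' h⟩
  choose f hf using h1
  refine ⟨f, fun t ht => (hf t (by omega)).1, fun t u htu hu => ?_⟩
  obtain ⟨h2, h3⟩ := hf t (by omega)
  obtain ⟨h4, h5⟩ := hf u (by omega)
  have h6 : (f t).1 < (f u).1 := by
    rw [h3, h5]
    exact e.strictMono (by simpa using htu)
  have := hA _ h2 _ h4 (fun e => by rw [e] at h6; omega)
  omega

end Pool.Agent.H.MP_eab1c6_co.Cnt
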